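import Mathlib

/-!
# A well-ordered unbounded family of length the bounding number

`bb` is the bounding number, written exactly as in the frozen statement of MP_91dc65_gt.
-/

set_option autoImplicit false

open Filter Cardinal

namespace Pool.Agent.helper989_frechet

/-- The bounding number: the least size of a family of functions from the natural numbers to the
natural numbers which is not eventually dominated by a single function. -/
noncomputable def bb : Cardinal.{0} :=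
  sInf {κ : Cardinal.{0} | ∃ F : Set (ℕ → ℕ),
    (∀ g : ℕ → ℕ, ∃ f ∈ F, ∃ᶠ n in atTop, g n < f n) ∧ Cardinal.mk F = κ}

theorem bb_spec : ∃ F : Set (ℕ → ℕ),
    (∀ g : ℕ → ℕ, ∃ f ∈ F, ∃ᶠ n in atTop, g n < f n) ∧ Cardinal.mk F = bb := by
  have h : {κ : Cardinal.{0} | ∃ F : Set (ℕ → ℕ),
      (∀ g : ℕ → ℕ, ∃ f ∈ F, ∃ᶠ n in atTop, g n < f n) ∧ Cardinal.mk F = κ}.Nonempty := by
    refine ⟨_, Set.univ, fun g => ⟨fun n => g n + 1, Set.mem_univ _, ?_⟩, rfl⟩
    exact Frequently.of_forall (fun n => Nat.lt_succ_self _)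
  exact csInf_mem h

theorem bdd_of_lt {F : Set (ℕ → ℕ)} (hF : Cardinal.mk F < bb) :
    ∃ g : ℕ → ℕ, ∀ f ∈ F, ∀ᶠ n in atTop, f n ≤ g n := by
  by_contra hc
  push Not at hc
  refine absurd (csInf_le' ⟨F, fun g => ?_, rfl⟩ : bb ≤ Cardinal.mk F) (not_le.2 hF)
  obtain ⟨f, hf, hg⟩ := hc g
  refine ⟨f, hf, ?_⟩
  simpa [not_eventually] using hg

theorem bdd_of_lt' {κ : Type} (hκ : Cardinal.mk κ < bb) (f : κ → ℕ → ℕ) :
    ∃ g : ℕ → ℕ, ∀ i, ∀ᶠ n in atTop, f i n < g n := by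
  obtain ⟨g, hg⟩ := bdd_of_lt (F := Set.range f) (lt_of_le_of_lt Cardinal.mk_range_le hκ)
  refine ⟨fun n => g n + 1, fun i => ?_⟩
  filter_upwards [hg (f i) ⟨i, rfl⟩] with n hn
  omega

theorem bdd_nat (f : ℕ → ℕ → ℕ) : ∃ g : ℕ → ℕ, ∀ i, ∀ᶠ n in atTop, f i n < g n := by
  refine ⟨fun n => (Finset.range (n + 1)).sup (fun i => f i n) + 1, fun i => ?_⟩
  filter_upwards [eventually_ge_atTop i] with n hn
  have h : f i n ≤ (Finset.range (n + 1)).sup (fun i => f i n) :=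
    Finset.le_sup (f := fun i => f i n) (Finset.mem_range.2 (by omega))
  omega

theorem aleph0_lt_bb : ℵ₀ < bb := by
  by_contra hc
  push Not at hc
  obtain ⟨F, hF, hb⟩ := bb_spec
  rw [← hb, Cardinal.le_aleph0_iff_set_countable] at hc
  rcases F.eq_empty_or_nonempty with rfl | hne
  · obtain ⟨f, hf, _⟩ := hF 0
    exact absurd hf (Set.notMem_empty f)
  · obtain ⟨s, rfl⟩ := hc.exists_eq_range hne
    obtain ⟨g, hg⟩ := bdd_nat s
    obtain ⟨_, ⟨i, rfl⟩, h⟩ := hF g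
    obtain ⟨n, hn1, hn2⟩ := (h.and_eventually (hg i)).exists
    omega

/-- A family of functions which is strictly increasing modulo finite sets, unbounded, consists of
strictly increasing functions, and is such that families indexed by initial segments are
bounded. -/
structure Sc {ι : Type} [LinearOrder ι] (F : ι → ℕ → ℕ) : Prop where
  mono : ∀ β : ι, StrictMono (F β)
  lt : ∀ β γ : ι, β < γ → ∀ᶠ n in atTop, F β n < F γ n
  unb : ∀ g : ℕ → ℕ, ∃ α, ∃ᶠ n in atTop, g n < F α n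
  small : ∀ α : ι, ∀ f : Set.Iio α → ℕ → ℕ, ∃ g : ℕ → ℕ, ∀ i, ∀ᶠ n in atTop, f i n < g n

theorem exists_sc : ∃ F : bb.ord.ToType → ℕ → ℕ, Sc F := by
  classical
  obtain ⟨A, hA, hb⟩ := bb_spec
  have hcard : Cardinal.mk (bb.ord).ToType = Cardinal.mk A := by
    rw [Cardinal.mk_ord_toType, hb]
  obtain ⟨e⟩ := Cardinal.eq.1 hcard
  have hseg : ∀ w : (bb.ord).ToType, Cardinal.mk (Set.Iio w) < bb := fun w =>
    Cardinal.mk_Iio_toType_ord_lt w
  have step : ∀ (w : bb.ord.ToType) (G : (v : bb.ord.ToType) → v < w → (ℕ → ℕ)), ∃ f : ℕ → ℕ,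
      StrictMono f ∧ (∀ n, (e w : ℕ → ℕ) n ≤ f n) ∧ ∀ v hv, ∀ᶠ n in atTop, G v hv n < f n := by
    intro w G
    obtain ⟨g, hg⟩ := bdd_of_lt' (hseg w) (fun v : Set.Iio w => G v.1 v.2)
    refine ⟨fun n => ∑ i ∈ Finset.range (n + 1), ((e w : ℕ → ℕ) i + g i + 1), ?_, ?_, ?_⟩
    · apply strictMono_nat_of_lt_succ
      intro n
      show _ < ∑ i ∈ Finset.range (n + 1 + 1), ((e w : ℕ → ℕ) i + g i + 1)
      rw [Finset.sum_range_succ _ (n + 1)]
      omega
    · intro n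
      show _ ≤ ∑ i ∈ Finset.range (n + 1), ((e w : ℕ → ℕ) i + g i + 1)
      rw [Finset.sum_range_succ]
      omega
    · intro v hv
      filter_upwards [hg ⟨v, hv⟩] with n hn
      show _ < ∑ i ∈ Finset.range (n + 1), ((e w : ℕ → ℕ) i + g i + 1)
      rw [Finset.sum_range_succ]
      have : G v hv n < g n := hn
      omega
  choose H hH1 hH2 hH3 using step
  let F : bb.ord.ToType → ℕ → ℕ :=
    WellFounded.fix (wellFounded_lt (α := bb.ord.ToType)) (fun i f => H i f)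
  have hF : ∀ i, F i = H i (fun j _ => F j) := fun i => WellFounded.fix_eq _ _ _
  refine ⟨F, ?_, ?_, ?_, ?_⟩
  · intro β
    rw [hF]
    exact hH1 _ _
  · intro β γ h
    rw [hF γ]
    exact hH3 γ (fun j _ => F j) β h
  · intro g
    obtain ⟨f, hf, hg⟩ := hA g
    refine ⟨e.symm ⟨f, hf⟩, hg.mono fun n hn => ?_⟩
    rw [hF]
    have := hH2 (e.symm ⟨f, hf⟩) (fun j _ => F j) n
    rw [Equiv.apply_symm_apply] at this
    exact lt_of_lt_of_le hn this
  · intro α f
    exact bdd_of_lt' (hseg α) f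

namespace Sc

variable {ι : Type} [LinearOrder ι] {F : ι → ℕ → ℕ}

theorem le_of_le (h : Sc F) {β γ : ι} (hβγ : β ≤ γ) : ∀ᶠ n in atTop, F β n ≤ F γ n := by
  rcases hβγ.lt_or_eq with h1 | rfl
  · exact (h.lt β γ h1).mono fun n hn => hn.le
  · exact Eventually.of_forall fun n => le_rfl

theorem id_le (h : Sc F) (β : ι) (n : ℕ) : n ≤ F β n := (h.mono β).le_apply

/-- countably many members of the family are bounded by a single member -/
theorem ctb (h : Sc F) (β : ℕ → ι) : ∃ γ, ∀ i, β i < γ := by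
  by_contra hc
  push Not at hc
  obtain ⟨g, hg⟩ := bdd_nat (fun i => F (β i))
  obtain ⟨α, hα⟩ := h.unb g
  obtain ⟨i, hi⟩ := hc α
  obtain ⟨n, ⟨h1, h2⟩, h3⟩ := ((hα.and_eventually (hg i)).and_eventually (h.le_of_le hi)).exists
  omega

theorem unb' (h : Sc F) (β₀ : ι) {e : ℕ → ℕ} (he : Tendsto e atTop atTop) (G : ℕ → ℕ) :
    ∃ β, β₀ < β ∧ ∃ᶠ n in atTop, G n < F β (e n) := by
  have h1 : ∀ x, ∃ n, x ≤ n ∧ x ≤ e n := by
    intro x
    obtain ⟨n, hn1, hn2⟩ := ((eventually_ge_atTop x).and (he.eventually_ge_atTop x)).exists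
    exact ⟨n, hn1, hn2⟩
  choose ν hν1 hν2 using h1
  obtain ⟨α, hα⟩ := h.unb (fun x => G (ν x))
  obtain ⟨β, hβ⟩ := h.ctb (fun i => if i = 0 then α else β₀)
  have hβ0 : α < β := by simpa using hβ 0
  have hβ1 : β₀ < β := by simpa using hβ 1
  refine ⟨β, hβ1, ?_⟩
  rw [frequently_atTop]
  intro N
  obtain ⟨x, ⟨hx1, hx2⟩, hx3⟩ :=
    ((hα.and_eventually (h.lt α β hβ0)).and_eventually (eventually_ge_atTop N)).exists
  refine ⟨ν x, hx3.trans (hν1 x), ?_⟩
  have h5 : F β x ≤ F β (e (ν x)) := (h.mono β).monotone (hν2 x)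
  omega

end Sc

end Pool.Agent.helper989_frechet
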