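import Mathlib
import Pool.Agent.helper989_frechet.Scale

/-!
# Null sequences of finite sequences, and the diagonal lemma
-/

set_option autoImplicit false

open Filter

namespace Pool.Agent.helper989_frechet

/-- the relation `a < b` and `b ≠ f a` -/
def Rl (f : ℕ → ℕ) (a b : ℕ) : Prop := a < b ∧ b ≠ f a

variable {ι : Type} {F : ι → ℕ → ℕ}

/-- A sequence of finite sequences is null if for every `n` almost all members have all their
entries at least `n` and for every `β` almost all members are chains for `Rl (F β)`. -/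
structure Null {ι : Type} (F : ι → ℕ → ℕ) (r : ℕ → List ℕ) : Prop where
  ge : ∀ n : ℕ, ∀ᶠ k in atTop, ∀ a ∈ r k, n ≤ a
  ch : ∀ β : ι, ∀ᶠ k in atTop, (r k).IsChain (Rl (F β))

namespace Null

theorem comp {r : ℕ → List ℕ} (h : Null F r) {φ : ℕ → ℕ} (hφ : Tendsto φ atTop atTop) :
    Null F (fun k => r (φ k)) :=
  ⟨fun n => hφ.eventually (h.ge n), fun β => hφ.eventually (h.ch β)⟩

theorem nil : Null F (fun _ => []) :=
  ⟨fun _ => Eventually.of_forall (by simp), fun _ => Eventually.of_forall (by simp)⟩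

theorem single {φ : ℕ → ℕ} (hφ : Tendsto φ atTop atTop) : Null F (fun k => [φ k]) :=
  ⟨fun n => (hφ.eventually_ge_atTop n).mono (by simp), fun _ => Eventually.of_forall (by simp)⟩

theorem left {p s r : ℕ → List ℕ} (h : Null F r) (hp : ∀ k, p k = [] ∨ r k = p k ++ s k) :
    Null F p := by
  constructor
  · intro n
    filter_upwards [h.ge n] with k hk a ha
    rcases hp k with h1 | h1
    · rw [h1] at ha; simp at ha
    · exact hk a (by rw [h1]; exact List.mem_append_left _ ha)
  · intro β
    filter_upwards [h.ch β] with k hk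
    rcases hp k with h1 | h1
    · rw [h1]; exact List.IsChain.nil
    · rw [h1] at hk
      exact (List.isChain_append.1 hk).1

/-- a fixed nonempty list does not occur infinitely often as an initial segment -/
theorem ne_append {r : ℕ → List ℕ} (h : Null F r) {v : List ℕ} (hv : v ≠ []) :
    ∀ᶠ k in atTop, ∀ w, r k ≠ v ++ w := by
  obtain ⟨a, v', rfl⟩ := List.exists_cons_of_ne_nil hv
  filter_upwards [h.ge (a + 1)] with k hk w hw
  have := hk a (by rw [hw]; simp)
  omega

theorem junction {q : ℕ → List ℕ} (hq : Null F q) {s : List ℕ} {β : ι}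
    (hs : s.IsChain (Rl (F β))) : ∀ᶠ j in atTop, (s ++ q j).IsChain (Rl (F β)) := by
  rcases List.eq_nil_or_concat s with rfl | ⟨s', a, rfl⟩
  · simpa using hq.ch β
  · filter_upwards [hq.ch β, hq.ge (a + F β a + 1)] with j h1 h2
    rw [List.isChain_append]
    refine ⟨hs, h1, ?_⟩
    intro x hx y hy
    have hx' : x = a := by simpa using hx.symm
    have hy' : y ∈ q j := List.mem_of_mem_head? hy
    have := h2 y hy'
    subst hx'
    exact ⟨by omega, by omega⟩

end Null

/-- openness in the topology determined by null sequences -/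
def Op {ι : Type} (F : ι → ℕ → ℕ) (V : Set (List ℕ)) : Prop :=
  ∀ t ∈ V, ∀ r, Null F r → ∀ᶠ k in atTop, t ++ r k ∈ V

/-- the cone of all extensions of `t` -/
def Cone (t : List ℕ) : Set (List ℕ) := {u | ∃ s, u = t ++ s}

/-- the set of all extensions of `t` by chains -/
def Ch (f : ℕ → ℕ) (t : List ℕ) : Set (List ℕ) := {u | ∃ s, u = t ++ s ∧ s.IsChain (Rl f)}

theorem op_cone (t : List ℕ) : Op F (Cone t) := by
  rintro _ ⟨s, rfl⟩ r _
  exact Eventually.of_forall fun k => ⟨s ++ r k, by simp⟩

theorem op_cone_compl (t : List ℕ) : Op F (Cone t)ᶜ := by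
  intro u hu r hr
  by_cases hut : ∃ v, t = u ++ v
  · obtain ⟨v, rfl⟩ := hut
    have hv : v ≠ [] := by
      rintro rfl
      exact hu ⟨[], by simp⟩
    filter_upwards [hr.ne_append hv] with k hk
    rintro ⟨s, hs⟩
    rw [List.append_assoc, List.append_cancel_left_eq] at hs
    exact hk s hs
  · refine Eventually.of_forall fun k => ?_
    rintro ⟨s, hs⟩
    rcases List.append_eq_append_iff.1 hs with ⟨a, h1, h2⟩ | ⟨a, h1, h2⟩
    · exact hut ⟨a, h1⟩
    · exact hu ⟨a, h1⟩

theorem op_ch (β : ι) (t : List ℕ) : Op F (Ch (F β) t) := by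
  rintro _ ⟨s, rfl, hs⟩ r hr
  filter_upwards [hr.junction hs] with k hk
  exact ⟨s ++ r k, by simp, hk⟩

theorem self_mem_ch (f : ℕ → ℕ) (t : List ℕ) : t ∈ Ch f t := ⟨[], by simp, List.IsChain.nil⟩

/-- the part of `V` reachable from `t` through initial segments in `V` -/
def Wt (V : Set (List ℕ)) (t : List ℕ) : Set (List ℕ) :=
  {u | ∃ r, u = t ++ r ∧ ∀ p s, r = p ++ s → t ++ p ∈ V}

theorem wt_subset (V : Set (List ℕ)) (t : List ℕ) : Wt V t ⊆ V := by
  rintro _ ⟨r, rfl, hr⟩
  exact hr r [] (by simp)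

theorem self_mem_wt {V : Set (List ℕ)} {t : List ℕ} (ht : t ∈ V) : t ∈ Wt V t := by
  refine ⟨[], by simp, ?_⟩
  intro p s h
  have : p = [] := by
    have := List.append_eq_nil_iff.1 h.symm
    exact this.1
  subst this
  simpa using ht

theorem op_wt {V : Set (List ℕ)} (hV : Op F V) (t : List ℕ) : Op F (Wt V t) := by
  classical
  rintro _ ⟨r, rfl, hr⟩ u hu
  have hin : t ++ r ∈ V := hr r [] (by simp)
  let p : ℕ → List ℕ := fun k =>
    if h : ∃ p s, u k = p ++ s ∧ t ++ r ++ p ∉ V then h.choose else []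
  have hp : Null F p := by
    refine hu.left (s := fun k =>
      if h : ∃ p s, u k = p ++ s ∧ t ++ r ++ p ∉ V then h.choose_spec.choose else []) ?_
    intro k
    by_cases h : ∃ p s, u k = p ++ s ∧ t ++ r ++ p ∉ V
    · right
      simp only [p, dif_pos h]
      exact h.choose_spec.choose_spec.1
    · left
      simp only [p, dif_neg h]
  filter_upwards [hV _ hin p hp] with k hk
  refine ⟨r ++ u k, by simp, ?_⟩
  intro p' s' h
  rcases List.append_eq_append_iff.1 h with ⟨a, h1, h2⟩ | ⟨a, h1, h2⟩
  · -- `p' = r ++ a`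
    by_contra hc
    have hex : ∃ p s, u k = p ++ s ∧ t ++ r ++ p ∉ V := ⟨a, s', h2, by
      rw [List.append_assoc, ← h1]; exact hc⟩
    have h3 : p k = hex.choose := by simp only [p, dif_pos hex]
    rw [h3] at hk
    exact hex.choose_spec.choose_spec.2 hk
  · exact hr p' a h1

theorem op_wt_compl (V : Set (List ℕ)) (t : List ℕ) : Op F (Wt V t)ᶜ := by
  intro u hu r hr
  by_cases hut : u ∈ Cone t
  · obtain ⟨s, rfl⟩ := hut
    refine Eventually.of_forall fun k => ?_
    rintro ⟨w, hw, hw'⟩
    apply hu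
    refine ⟨s, rfl, fun p s' h => ?_⟩
    rw [List.append_assoc, List.append_cancel_left_eq] at hw
    exact hw' p (s' ++ r k) (by rw [← hw, h]; simp)
  · filter_upwards [op_cone_compl (F := F) t u hut r hr] with k hk
    rintro ⟨w, hw, _⟩
    exact hk ⟨w, hw⟩

theorem op_compl_singleton (t : List ℕ) : Op F ({t}ᶜ : Set (List ℕ)) := by
  intro u hu r hr
  by_cases hut : ∃ v, t = u ++ v
  · obtain ⟨v, rfl⟩ := hut
    have hv : v ≠ [] := by
      rintro rfl
      exact hu (by simp)
    filter_upwards [hr.ne_append hv] with k hk h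
    have h' : u ++ r k = u ++ v := h
    rw [List.append_cancel_left_eq] at h'
    exact hk [] (by simpa using h')
  · refine Eventually.of_forall fun k h => ?_
    have h' : u ++ r k = t := h
    exact hut ⟨r k, h'.symm⟩

end Pool.Agent.helper989_frechet
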