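import Mathlib
import Pool.Agent.helper989_frechet.Null

/-!
# The diagonal lemma for null sequences
-/

set_option autoImplicit false

open Filter

namespace Pool.Agent.helper989_frechet

variable {ι : Type} [LinearOrder ι] {F : ι → ℕ → ℕ}

/-- in a chain for `<`, the entries lie between the first and the last entry -/
theorem chain_bounds {l : List ℕ} (h : l.IsChain (· < ·)) (hne : l ≠ []) :
    ∀ a ∈ l, l.head hne ≤ a ∧ a ≤ l.getLast hne := by
  have hp : l.Pairwise (· < ·) := List.isChain_iff_pairwise.1 h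
  intro a ha
  constructor
  · obtain ⟨b, l', rfl⟩ := List.exists_cons_of_ne_nil hne
    rcases List.mem_cons.1 ha with rfl | ha'
    · simp
    · exact ((List.pairwise_cons.1 hp).1 a ha').le
  · rcases List.eq_nil_or_concat l with rfl | ⟨s', b, rfl⟩
    · exact absurd rfl hne
    · simp only [List.getLast_append_singleton, List.concat_eq_append] at *
      rcases List.mem_append.1 ha with ha' | ha'
      · exact ((List.pairwise_append.1 hp).2.2 a ha' b (by simp)).le
      · simp at ha'
        exact ha'.le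

/-- a chain for `<` with entries below the values of `f` at its entries is a chain for `Rl f` -/
theorem chain_of_bounds {f : ℕ → ℕ} {l : List ℕ} (h : l.IsChain (· < ·))
    (hb : ∀ a ∈ l, ∀ b ∈ l, b < f a) : l.IsChain (Rl f) := by
  induction l with
  | nil => exact List.IsChain.nil
  | cons a l ih =>
    rw [List.isChain_cons] at h ⊢
    refine ⟨fun y hy => ⟨h.1 y hy, ?_⟩, ih h.2 fun x hx y hy =>
      hb x (List.mem_cons_of_mem _ hx) y (List.mem_cons_of_mem _ hy)⟩
    have := hb a (by simp) y (List.mem_cons_of_mem _ (List.mem_of_mem_head? hy))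
    omega

theorem chain_lt {f : ℕ → ℕ} {l : List ℕ} (h : l.IsChain (Rl f)) : l.IsChain (· < ·) :=
  h.imp fun _ _ hab => hab.1

/-- The diagonal lemma, main case. -/
theorem diag_main [WellFoundedLT ι] (hF : Sc F) {r : ℕ → List ℕ} (hr : Null F r)
    {q : ℕ → ℕ → List ℕ} (hq : ∀ n, Null F (q n)) (hr0 : ∀ n, r n ≠ []) (hq0 : ∀ n j, q n j ≠ []) :
    ∃ n j : ℕ → ℕ, Null F (fun i => r (n i) ++ q (n i) (j i)) := by
  classical
  obtain ⟨α₀, -⟩ := hF.unb 0
  -- last elements of `r n`
  let ρ : ℕ → ℕ := fun n => (r n).getLast (hr0 n)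
  have hρ : Tendsto ρ atTop atTop := by
    rw [tendsto_atTop]
    intro N
    filter_upwards [hr.ge N] with n hn
    exact hn _ (List.getLast_mem _)
  let m : ℕ → ℕ → ℕ := fun n j => (q n j).head (hq0 n j)
  let M : ℕ → ℕ → ℕ := fun n j => (q n j).getLast (hq0 n j)
  have hm : ∀ n, Tendsto (m n) atTop atTop := by
    intro n
    rw [tendsto_atTop]
    intro N
    filter_upwards [(hq n).ge N] with j hj
    exact hj _ (List.head_mem _)
  -- step 1
  have h1 : ∀ n, ∃ α, ∃ᶠ j in atTop, M n j < F α (m n j) := by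
    intro n
    obtain ⟨α, -, hα⟩ := hF.unb' α₀ (hm n) (M n)
    exact ⟨α, hα⟩
  choose αs hαs using h1
  obtain ⟨αst, hαst⟩ := hF.ctb αs
  have h2 : ∀ n, ∃ᶠ j in atTop, M n j < F αst (m n j) := by
    intro n
    refine ((hαs n).and_eventually ((hm n).eventually (hF.lt _ _ (hαst n)))).mono ?_
    rintro j ⟨h3, h4⟩
    omega
  -- step 2
  have h3 : ∀ β : ι, ∀ᶠ n in atTop, ∃ Φ, ∀ j, Φ ≤ j → (r n ++ q n j).IsChain (Rl (F β)) := by
    intro β
    filter_upwards [hr.ch β] with n hn
    exact eventually_atTop.1 ((hq n).junction hn)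
  obtain ⟨Ψ, hΨ⟩ : ∃ Ψ : ℕ → ℕ, ∀ β, β < αst → ∀ᶠ n in atTop, ∀ j, Ψ n ≤ j →
      (r n ++ q n j).IsChain (Rl (F β)) := by
    let Φ : ι → ℕ → ℕ := fun β n =>
      if h : ∃ Φ, ∀ j, Φ ≤ j → (r n ++ q n j).IsChain (Rl (F β)) then h.choose else 0
    obtain ⟨Ψ, hΨ⟩ := hF.small αst (fun β => Φ β.1)
    refine ⟨Ψ, fun β hβ => ?_⟩
    filter_upwards [h3 β, hΨ ⟨β, hβ⟩] with n h4 h5 j hj
    have h6 : Φ β n = h4.choose := by simp only [Φ, dif_pos h4]
    have h7 : Φ β n < Ψ n := h5
    exact h4.choose_spec j (by omega)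
  -- step 3: for every `n` and bound `B` there are good `j`
  have h4 : ∀ n B, ∃ j, Ψ n ≤ j ∧ B < m n j ∧ M n j < F αst (m n j) ∧
      (q n j).IsChain (· < ·) := by
    intro n B
    have := ((((h2 n).and_eventually ((hm n).eventually_gt_atTop B)).and_eventually
      (eventually_ge_atTop (Ψ n))).and_eventually ((hq n).ch α₀)).exists
    obtain ⟨j, ⟨⟨h5, h6⟩, h7⟩, h8⟩ := this
    exact ⟨j, h7, h6, h5, chain_lt h8⟩
  choose J hJ1 hJ2 hJ3 hJ4 using h4
  -- the index chosen for `β` at `n`
  let jj : ι → ℕ → ℕ := fun β n => J n (max (F β (ρ n)) n)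
  let g : ι → ℕ → ℕ := fun β n => m n (jj β n)
  have hg1 : ∀ β n, F β (ρ n) < g β n := fun β n => lt_of_le_of_lt (le_max_left _ _) (hJ2 n _)
  have hg2 : ∀ β n, n < g β n := fun β n => lt_of_le_of_lt (le_max_right _ _) (hJ2 n _)
  -- the sequence `β_i`
  have h5 : ∀ β, ∃ β', β < β' ∧ ∃ᶠ n in atTop, g β n < F β' (ρ n) := fun β =>
    hF.unb' β hρ (g β)
  choose nx hnx1 hnx2 using h5
  let β : ℕ → ι := fun i => Nat.rec αst (fun _ b => nx b) i
  have hβ0 : β 0 = αst := rfl
  have hβs : ∀ i, β (i + 1) = nx (β i) := fun i => rfl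
  have hβmono : StrictMono β := strictMono_nat_of_lt_succ fun i => by
    rw [hβs]; exact hnx1 _
  -- the supremum
  obtain ⟨βω, hβω, hmin⟩ := WellFounded.has_min (wellFounded_lt (α := ι)) {γ | ∀ i, β i < γ}
    (hF.ctb β)
  have hβω' : ∀ γ, γ < βω → ∃ i, γ ≤ β i := by
    intro γ hγ
    by_contra hc
    push Not at hc
    exact hmin γ hc hγ
  have hβω2 : ∀ i, β i < βω := hβω
  -- thresholds
  have h6 : ∀ (γ : ι) (i : ℕ), ∃ N, γ ≤ β i → ∀ x, N ≤ x → F γ x ≤ F (β i) x := by
    intro γ i
    rcases Classical.em (γ ≤ β i) with h | h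
    · obtain ⟨N, hN⟩ := eventually_atTop.1 (hF.le_of_le h)
      exact ⟨N, fun _ => hN⟩
    · exact ⟨0, fun h' => absurd h' h⟩
  choose θ hθ using h6
  obtain ⟨G, hG⟩ := hF.small βω (fun γ => θ γ.1)
  have h7 : ∀ i, ∃ N, ∀ x, N ≤ x → F (β (i + 1)) x < F βω x := fun i =>
    eventually_atTop.1 (hF.lt _ _ (hβω2 (i + 1)))
  choose κ hκ using h7
  -- the choice of `n_i`
  have h8 : ∀ i, ∃ n, g (β i) n < F (β (i + 1)) (ρ n) ∧ G i ≤ ρ n ∧ κ i ≤ ρ n ∧ i ≤ n := by
    intro i
    have := ((((hnx2 (β i)).and_eventually (hρ.eventually_ge_atTop (G i))).and_eventually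
      (hρ.eventually_ge_atTop (κ i))).and_eventually (eventually_ge_atTop i)).exists
    obtain ⟨n, ⟨⟨a, b⟩, c⟩, d⟩ := this
    exact ⟨n, by rw [hβs]; exact a, b, c, d⟩
  choose n hn1 hn2 hn3 hn4 using h8
  have hn : Tendsto n atTop atTop := tendsto_atTop_mono hn4 tendsto_id
  have hρn : Tendsto (fun i => ρ (n i)) atTop atTop := hρ.comp hn
  refine ⟨n, fun i => jj (β i) (n i), ?_, ?_⟩
  · intro N
    filter_upwards [(hr.comp hn).ge N, eventually_ge_atTop N] with i hi hi2 a ha
    rcases List.mem_append.1 ha with ha | ha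
    · exact hi a ha
    · have h9 := (chain_bounds (hJ4 (n i) _) (hq0 _ _) a ha).1
      have h10 : n i < m (n i) (jj (β i) (n i)) := hg2 (β i) (n i)
      have h11 : m (n i) (jj (β i) (n i)) ≤ a := h9
      have := hn4 i
      omega
  · intro γ
    rcases lt_or_ge γ αst with hγ | hγ
    · filter_upwards [hn.eventually (hΨ γ hγ)] with i hi
      exact hi _ (hJ1 _ _)
    · -- the junction
      have hj : ∀ᶠ i in atTop, g (β i) (n i) ≠ F γ (ρ (n i)) := by
        rcases lt_or_ge γ βω with h | h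
        · obtain ⟨i₀, hi₀⟩ := hβω' γ h
          filter_upwards [hG ⟨γ, h⟩, eventually_ge_atTop i₀] with i hi hi2
          have h9 : γ ≤ β i := hi₀.trans (hβmono.monotone hi2)
          have h10 : F γ (ρ (n i)) ≤ F (β i) (ρ (n i)) := by
            refine hθ γ i h9 _ ?_
            have h11 : θ γ i < G i := hi
            have := hn2 i
            omega
          have := hg1 (β i) (n i)
          omega
        · filter_upwards [hρn.eventually (hF.le_of_le h)] with i hi
          have h9 := hκ i _ (hn3 i)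
          have h10 := hn1 i
          omega
      have hin : ∀ᶠ i in atTop, ∀ x, n i ≤ x → F αst x ≤ F γ x := by
        obtain ⟨N, hN⟩ := eventually_atTop.1 (hF.le_of_le hγ)
        filter_upwards [eventually_ge_atTop N] with i hi x hx
        have := hn4 i
        exact hN x (by omega)
      filter_upwards [hj, hin, (hr.comp hn).ch γ] with i h9 h10 h11
      rw [List.isChain_append]
      have hne := hq0 (n i) (jj (β i) (n i))
      refine ⟨h11, ?_, ?_⟩
      · apply chain_of_bounds (hJ4 _ _)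
        intro a ha b hb
        have ha' := (chain_bounds (hJ4 (n i) (max (F (β i) (ρ (n i))) (n i))) (hq0 _ _) a ha).1
        have hb' := (chain_bounds (hJ4 (n i) (max (F (β i) (ρ (n i))) (n i))) (hq0 _ _) b hb).2
        have h12 : n i < m (n i) (jj (β i) (n i)) := hg2 (β i) (n i)
        have h13 : m (n i) (jj (β i) (n i)) ≤ a := ha'
        have h14 : b ≤ M (n i) (jj (β i) (n i)) := hb'
        have h15 : M (n i) (jj (β i) (n i)) < F αst (m (n i) (jj (β i) (n i))) := hJ3 _ _
        have h16 : F αst (m (n i) (jj (β i) (n i))) ≤ F αst a := (hF.mono _).monotone h13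
        have h17 := h10 a (by omega)
        omega
      · intro x hx y hy
        have hx' : x = ρ (n i) := by
          have := List.getLast?_eq_getLast_of_ne_nil (hr0 (n i))
          rw [this] at hx
          simpa using hx.symm
        have hy' : y = g (β i) (n i) := by
          have := List.head?_eq_some_head hne
          rw [this] at hy
          simpa using hy.symm
        have h12 := hg1 (β i) (n i)
        have h13 := hF.id_le (β i) (ρ (n i))
        subst hx' hy'
        exact ⟨by omega, h9⟩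

end Pool.Agent.helper989_frechet
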