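import Mathlib
import Pool.Agent.helper989_frechet.Diag

/-!
# The set of limits of null sequences is closed
-/

set_option autoImplicit false

open Filter

namespace Pool.Agent.helper989_frechet

variable {ι : Type} [LinearOrder ι] {F : ι → ℕ → ℕ}

theorem diag [WellFoundedLT ι] (hF : Sc F) {r : ℕ → List ℕ} (hr : Null F r)
    {q : ℕ → ℕ → List ℕ} (hq : ∀ n, Null F (q n)) :
    ∃ n j : ℕ → ℕ, Null F (fun i => r (n i) ++ q (n i) (j i)) := by
  classical
  by_cases h1 : ∃ n, r n = []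
  · obtain ⟨n, hn⟩ := h1
    exact ⟨fun _ => n, fun i => i, by simpa [hn] using hq n⟩
  push Not at h1
  by_cases h2 : ∃ᶠ n in atTop, ∃ j, q n j = []
  · obtain ⟨φ, hφ, hφ'⟩ := extraction_of_frequently_atTop h2
    choose j hj using hφ'
    refine ⟨φ, j, ?_⟩
    have := hr.comp hφ.tendsto_atTop
    simpa [hj] using this
  · rw [not_frequently, eventually_atTop] at h2
    obtain ⟨N, hN⟩ := h2
    obtain ⟨n, j, h⟩ := diag_main hF (hr.comp (tendsto_add_atTop_nat N))
      (q := fun n => q (n + N)) (fun n => hq (n + N)) (fun n => h1 (n + N))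
      (fun n j hj => hN (n + N) (by omega) ⟨j, hj⟩)
    exact ⟨fun i => n i + N, j, h⟩

/-- all limits of null sequences from `A` -/
def Lim (F : ι → ℕ → ℕ) (A : Set (List ℕ)) : Set (List ℕ) :=
  {t | ∃ r, Null F r ∧ ∀ k, t ++ r k ∈ A}

omit [LinearOrder ι] in
theorem subset_lim (A : Set (List ℕ)) : A ⊆ Lim F A := fun t ht =>
  ⟨fun _ => [], Null.nil, fun _ => by simpa using ht⟩

theorem op_lim_compl [WellFoundedLT ι] (hF : Sc F) (A : Set (List ℕ)) : Op F (Lim F A)ᶜ := by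
  intro t ht r hr
  by_contra hc
  have hc' : ∃ᶠ k in atTop, t ++ r k ∈ Lim F A := by
    rw [not_eventually] at hc
    simpa using hc
  obtain ⟨φ, hφ, hφ'⟩ := extraction_of_frequently_atTop hc'
  choose q hq1 hq2 using hφ'
  obtain ⟨n, j, h⟩ := diag hF (hr.comp hφ.tendsto_atTop) hq1
  refine ht ⟨_, h, fun k => ?_⟩
  have := hq2 (n k) (j k)
  simpa using this

/-- The lower bound: a family of fewer than the bounding number of nonempty open sets. -/
theorem few (hF : Sc F) {κ : Type} (hκ : ∀ f : κ → ℕ → ℕ, ∃ g : ℕ → ℕ, ∀ i, ∀ᶠ n in atTop, f i n < g n)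
    (P : κ → Set (List ℕ)) (hP : ∀ i, Op F (P i)) (hP' : ∀ i, (P i).Nonempty) (v : List ℕ) :
    ∃ β, ∀ i, ¬ P i ⊆ Ch (F β) v := by
  choose t ht using hP'
  have h1 : ∀ i m, ∃ N, t i ++ [m] ∈ P i → ∀ b, N ≤ b → t i ++ [m, b] ∈ P i := by
    intro i m
    by_cases h : t i ++ [m] ∈ P i
    · obtain ⟨N, hN⟩ := eventually_atTop.1 (hP i _ h (fun b => [b]) (Null.single tendsto_id))
      exact ⟨N, fun _ b hb => by simpa using hN b hb⟩
    · exact ⟨0, fun h' => absurd h' h⟩
  choose f hf using h1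
  obtain ⟨g, hg⟩ := hκ f
  obtain ⟨β, hβ⟩ := hF.unb g
  refine ⟨β, fun i hi => ?_⟩
  obtain ⟨m, ⟨h2, h3⟩, h4⟩ := ((hβ.and_eventually (hg i)).and_eventually
    (hP i _ (ht i) (fun b => [b]) (Null.single tendsto_id))).exists
  have h5 := hf i m h4 (F β m) (by omega)
  obtain ⟨s, hs, -⟩ := hi (ht i)
  obtain ⟨s', hs', hc⟩ := hi h5
  rw [hs, List.append_assoc, List.append_cancel_left_eq] at hs'
  rw [← hs', List.isChain_append] at hc
  have h6 := hc.2.1
  rw [List.isChain_pair] at h6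
  exact h6.2 rfl

end Pool.Agent.helper989_frechet
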