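import Mathlib
import Pool.Agent.helper989_frechet.Closure

/-!
# The space of finite sequences with the topology determined by null sequences
-/

set_option autoImplicit false
set_option linter.style.haveILetI false

open Filter Topology

namespace Pool.Agent.helper989_frechet

variable {ι : Type} {F : ι → ℕ → ℕ}

/-- the topology determined by null sequences -/
@[reducible] def top (F : ι → ℕ → ℕ) : TopologicalSpace (List ℕ) where
  IsOpen V := Op F V
  isOpen_univ := fun _ _ _ _ => Eventually.of_forall fun _ => Set.mem_univ _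
  isOpen_inter := fun U V hU hV t ht r hr => (hU t ht.1 r hr).and (hV t ht.2 r hr)
  isOpen_sUnion := fun S hS t ht r hr => by
    obtain ⟨V, hV, htV⟩ := ht
    exact (hS V hV t htV r hr).mono fun k hk => ⟨V, hV, hk⟩

theorem isOpen_iff {V : Set (List ℕ)} : IsOpen[top F] V ↔ Op F V := Iff.rfl

theorem isClopen_wt {V : Set (List ℕ)} (hV : IsOpen[top F] V) (t : List ℕ) :
    @IsClopen _ (top F) (Wt V t) := by
  letI := top F
  exact ⟨isOpen_compl_iff.1 (isOpen_iff.2 (op_wt_compl (F := F) V t)), isOpen_iff.2 (op_wt hV t)⟩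

theorem isClopen_cone (t : List ℕ) : @IsClopen _ (top F) (Cone t) := by
  letI := top F
  exact ⟨isOpen_compl_iff.1 (isOpen_iff.2 (op_cone_compl (F := F) t)), isOpen_iff.2 (op_cone t)⟩

theorem basis : @TopologicalSpace.IsTopologicalBasis _ (top F)
    {s : Set (List ℕ) | @IsClopen _ (top F) s} := by
  letI := top F
  apply TopologicalSpace.isTopologicalBasis_of_isOpen_of_nhds
  · intro s hs
    exact hs.isOpen
  · intro t V ht hV
    exact ⟨Wt V t, isClopen_wt hV t, self_mem_wt ht, wt_subset V t⟩

theorem t1 : @T1Space _ (top F) := by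
  letI := top F
  exact ⟨fun t => isOpen_compl_iff.1 (isOpen_iff.2 (op_compl_singleton (F := F) t))⟩

theorem t2 : @T2Space _ (top F) := by
  letI := top F
  haveI := t1 (F := F)
  refine ⟨fun x y hxy => ?_⟩
  obtain ⟨W, hW, hxW, hWV⟩ := (basis (F := F)).exists_subset_of_mem_open (a := x) (u := {y}ᶜ)
    (by simpa using hxy) isOpen_compl_singleton
  exact ⟨W, Wᶜ, hW.isOpen, hW.compl.isOpen, hxW, fun hy => hWV hy rfl, disjoint_compl_right⟩

theorem tendsto_null (t : List ℕ) {r : ℕ → List ℕ} (hr : Null F r) :
    Tendsto (fun k => t ++ r k) atTop (@nhds _ (top F) t) := by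
  letI := top F
  rw [tendsto_nhds]
  intro V hV ht
  exact (isOpen_iff.1 hV) t ht r hr

theorem frechet [LinearOrder ι] [WellFoundedLT ι] (hF : Sc F) :
    @FrechetUrysohnSpace _ (top F) := by
  letI := top F
  refine ⟨fun A t ht => ?_⟩
  have h1 : IsClosed (Lim F A) := isOpen_compl_iff.1 (isOpen_iff.2 (op_lim_compl hF A))
  have h2 : closure A ⊆ Lim F A := closure_minimal (subset_lim A) h1
  obtain ⟨r, hr, hr'⟩ := h2 ht
  exact ⟨fun k => t ++ r k, hr', tendsto_null t hr⟩

/-! ### Homogeneity -/

/-- a map which eventually commutes with appending null sequences is continuous -/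
theorem cont_of {h : List ℕ → List ℕ}
    (hh : ∀ s r, Null F r → ∀ᶠ k in atTop, h (s ++ r k) = h s ++ r k) :
    @Continuous _ _ (top F) (top F) h := by
  letI := top F
  rw [continuous_def]
  intro V hV
  apply isOpen_iff.2
  intro s hs r hr
  filter_upwards [hh s r hr, (isOpen_iff.1 hV) (h s) hs r hr] with k h1 h2
  show h (s ++ r k) ∈ V
  rw [h1]
  exact h2

open Classical in
/-- the involution exchanging the sequences not beginning with `a` with their translates by
`a :: t` -/
noncomputable def swp (a : ℕ) (t : List ℕ) (s : List ℕ) : List ℕ :=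
  if ¬ ∃ w, s = a :: w then a :: t ++ s
  else if h : ∃ u, s = a :: t ++ u ∧ ¬ ∃ w, u = a :: w then h.choose
  else s

theorem swp_one {a : ℕ} {t s : List ℕ} (h : ¬ ∃ w, s = a :: w) : swp a t s = a :: t ++ s := by
  rw [swp, if_pos h]

theorem swp_two {a : ℕ} {t u : List ℕ} (h : ¬ ∃ w, u = a :: w) : swp a t (a :: t ++ u) = u := by
  have h1 : ∃ v, a :: t ++ u = a :: t ++ v ∧ ¬ ∃ w, v = a :: w := ⟨u, rfl, h⟩
  rw [swp, if_neg (by simp), dif_pos h1]
  have h2 := h1.choose_spec.1
  rw [List.append_cancel_left_eq] at h2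
  exact h2.symm

theorem swp_three {a : ℕ} {t s : List ℕ} (h : ∃ w, s = a :: w)
    (h' : ¬ ∃ u, s = a :: t ++ u ∧ ¬ ∃ w, u = a :: w) : swp a t s = s := by
  rw [swp, if_neg (by simpa using h), dif_neg h']

theorem swp_swp (a : ℕ) (t s : List ℕ) : swp a t (swp a t s) = s := by
  by_cases h : ∃ w, s = a :: w
  · by_cases h' : ∃ u, s = a :: t ++ u ∧ ¬ ∃ w, u = a :: w
    · obtain ⟨u, rfl, hu⟩ := h'
      rw [swp_two hu, swp_one hu]
    · rw [swp_three h h', swp_three h h']
  · rw [swp_one h, swp_two h]

theorem swp_cont (a : ℕ) (t : List ℕ) : @Continuous _ _ (top F) (top F) (swp a t) := by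
  apply cont_of
  intro s r hr
  have hr' : ∀ᶠ k in atTop, ¬ ∃ w, r k = a :: w := by
    filter_upwards [hr.ne_append (v := [a]) (by simp)] with k hk
    rintro ⟨w, hw⟩
    exact hk w (by simpa using hw)
  by_cases h : ∃ w, s = a :: w
  · by_cases h' : ∃ u, s = a :: t ++ u ∧ ¬ ∃ w, u = a :: w
    · obtain ⟨u, rfl, hu⟩ := h'
      filter_upwards [hr'] with k hk
      rw [swp_two hu, List.append_assoc, swp_two]
      rintro ⟨w, hw⟩
      rcases u with _ | ⟨b, u⟩
      · exact hk ⟨w, by simpa using hw⟩
      · simp only [List.cons_append, List.cons.injEq] at hw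
        exact hu ⟨u, by rw [hw.1]⟩
    · have hs : ∀ᶠ k in atTop, ¬ ∃ u, s ++ r k = a :: t ++ u ∧ ¬ ∃ w, u = a :: w := by
        by_cases hst : ∃ v, a :: t = s ++ v
        · obtain ⟨v, hv⟩ := hst
          rcases List.eq_nil_or_concat v with rfl | hv'
          · exfalso
            apply h'
            refine ⟨[], by simpa using hv.symm, by simp⟩
          · have hv0 : v ≠ [] := by
              obtain ⟨_, _, rfl⟩ := hv'
              simp
            filter_upwards [hr.ne_append hv0] with k hk
            rintro ⟨u, hu, -⟩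
            rw [hv, List.append_assoc, List.append_cancel_left_eq] at hu
            exact hk u hu
        · refine Eventually.of_forall fun k => ?_
          rintro ⟨u, hu, hu'⟩
          rcases List.append_eq_append_iff.1 hu with ⟨b, h1, h2⟩ | ⟨b, h1, h2⟩
          · exact hst ⟨b, h1⟩
          · apply h'
            refine ⟨b, h1, ?_⟩
            rintro ⟨w, rfl⟩
            apply hu'
            exact ⟨w ++ r k, by rw [h2]; simp⟩
      filter_upwards [hs] with k hk
      rw [swp_three h h', swp_three _ hk]
      obtain ⟨w, rfl⟩ := h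
      exact ⟨w ++ r k, by simp⟩
  · rw [swp_one h]
    filter_upwards [hr'] with k hk
    rw [swp_one, List.append_assoc]
    rintro ⟨w, hw⟩
    rcases s with _ | ⟨b, s⟩
    · exact hk ⟨w, by simpa using hw⟩
    · simp only [List.cons_append, List.cons.injEq] at hw
      exact h ⟨s, by rw [hw.1]⟩

theorem homog_nil (x : List ℕ) : ∃ h : @Homeomorph _ _ (top F) (top F), h ([] : List ℕ) = x := by
  letI := top F
  rcases x with _ | ⟨a, t⟩
  · exact ⟨Homeomorph.refl _, rfl⟩
  · refine ⟨{ toFun := swp a t
              invFun := swp a t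
              left_inv := swp_swp a t
              right_inv := swp_swp a t
              continuous_toFun := swp_cont a t
              continuous_invFun := swp_cont a t }, ?_⟩
    show swp a t [] = a :: t
    rw [swp_one (by simp)]
    simp

theorem homog (x y : List ℕ) : ∃ h : @Homeomorph _ _ (top F) (top F), h x = y := by
  letI := top F
  obtain ⟨h1, h1'⟩ := homog_nil (F := F) x
  obtain ⟨h2, h2'⟩ := homog_nil (F := F) y
  refine ⟨h1.symm.trans h2, ?_⟩
  rw [Homeomorph.trans_apply, ← h1', Homeomorph.symm_apply_apply, h2']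

end Pool.Agent.helper989_frechet
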