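import Mathlib
import Pool.Agent.helper989_frechet.Space

/-!
# Convergent sequences are translates of null sequences; the property alpha two; pi-character
-/

set_option autoImplicit false
set_option linter.style.haveILetI false

open Filter Topology

namespace Pool.Agent.helper989_frechet

variable {ι : Type} {F : ι → ℕ → ℕ}

theorem op_big (n : ℕ) (t : List ℕ) : Op F {u | ∃ s, u = t ++ s ∧ ∀ a ∈ s, n ≤ a} := by
  rintro _ ⟨s, rfl, hs⟩ r hr
  filter_upwards [hr.ge n] with k hk
  refine ⟨s ++ r k, by simp, ?_⟩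
  intro a ha
  rcases List.mem_append.1 ha with ha | ha
  · exact hs a ha
  · exact hk a ha

/-- convergent sequences are translates of null sequences -/
theorem null_of_tendsto {t : List ℕ} {u : ℕ → List ℕ}
    (hu : Tendsto u atTop (@nhds _ (top F) t)) :
    ∃ r, Null F r ∧ ∀ᶠ k in atTop, u k = t ++ r k := by
  classical
  letI := top F
  have h1 : ∀ V : Set (List ℕ), Op F V → t ∈ V → ∀ᶠ k in atTop, u k ∈ V := fun V hV ht =>
    hu.eventually ((isOpen_iff.2 hV).mem_nhds ht)
  let r : ℕ → List ℕ := fun k => if h : ∃ s, u k = t ++ s then h.choose else []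
  have hr : ∀ k s, u k = t ++ s → r k = s := by
    intro k s hs
    have h2 : ∃ s, u k = t ++ s := ⟨s, hs⟩
    have h3 : r k = h2.choose := by simp only [r, dif_pos h2]
    have h4 := h2.choose_spec
    rw [← h3] at h4
    rw [hs, List.append_cancel_left_eq] at h4
    exact h4.symm
  refine ⟨r, ⟨?_, ?_⟩, ?_⟩
  · intro n
    filter_upwards [h1 _ (op_big n t) ⟨[], by simp, by simp⟩] with k hk
    obtain ⟨s, hs, hs'⟩ := hk
    rw [hr k s hs]
    exact hs'
  · intro β
    filter_upwards [h1 _ (op_ch β t) (self_mem_ch _ t)] with k hk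
    obtain ⟨s, hs, hs'⟩ := hk
    rw [hr k s hs]
    exact hs'
  · filter_upwards [h1 _ (op_cone t) ⟨[], by simp⟩] with k hk
    obtain ⟨s, hs⟩ := hk
    rw [hr k s hs]
    exact hs

variable [LinearOrder ι]

/-- `l` is increasing and its entries are below the values of `f` at its entries -/
def Sm (f : ℕ → ℕ) (l : List ℕ) : Prop := l.IsChain (· < ·) ∧ ∀ a ∈ l, ∀ b ∈ l, b < f a

theorem ex_sm (hF : Sc F) {q : ℕ → List ℕ} (hq : Null F q) :
    ∃ α, ∃ᶠ j in atTop, Sm (F α) (q j) := by
  classical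
  obtain ⟨α₀, -⟩ := hF.unb 0
  by_cases h0 : ∃ᶠ j in atTop, q j = []
  · refine ⟨α₀, h0.mono fun j hj => ?_⟩
    rw [hj]
    exact ⟨List.IsChain.nil, by simp⟩
  · rw [not_frequently] at h0
    let m : ℕ → ℕ := fun j => if h : q j = [] then j else (q j).head h
    let M : ℕ → ℕ := fun j => if h : q j = [] then 0 else (q j).getLast h
    have hm : Tendsto m atTop atTop := by
      rw [tendsto_atTop]
      intro N
      filter_upwards [hq.ge N, h0] with j hj hj'
      simp only [m, dif_neg hj']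
      exact hj _ (List.head_mem _)
    obtain ⟨α, -, hα⟩ := hF.unb' α₀ hm M
    refine ⟨α, ((hα.and_eventually h0).and_eventually (hq.ch α₀)).mono ?_⟩
    rintro j ⟨⟨h1, h2⟩, h3⟩
    simp only [m, M, dif_neg h2] at h1
    refine ⟨chain_lt h3, fun a ha b hb => ?_⟩
    have ha' := (chain_bounds (chain_lt h3) h2 a ha).1
    have hb' := (chain_bounds (chain_lt h3) h2 b hb).2
    have := (hF.mono α).monotone ha'
    omega

theorem alpha_null (hF : Sc F) {q : ℕ → ℕ → List ℕ} (hq : ∀ n, Null F (q n)) :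
    ∃ j : ℕ → ℕ, (∀ n, n ≤ j n) ∧ Null F (fun n => q n (j n)) := by
  classical
  choose αs hαs using fun n => ex_sm hF (hq n)
  obtain ⟨αst, hαst⟩ := hF.ctb αs
  have h2 : ∀ n, ∃ᶠ j in atTop, Sm (F αst) (q n j) := by
    intro n
    obtain ⟨N, hN⟩ := eventually_atTop.1 (hF.lt _ _ (hαst n))
    refine ((hαs n).and_eventually ((hq n).ge N)).mono ?_
    rintro j ⟨⟨h3, h4⟩, h5⟩
    refine ⟨h3, fun a ha b hb => ?_⟩
    have h6 := h4 a ha b hb
    have h7 := hN a (h5 a ha)
    omega
  have h3 : ∀ (β : ι) (n : ℕ), ∃ Φ, ∀ j, Φ ≤ j → (q n j).IsChain (Rl (F β)) := fun β n =>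
    eventually_atTop.1 ((hq n).ch β)
  choose Φ hΦ using h3
  obtain ⟨Ψ, hΨ⟩ := hF.small αst (fun β => Φ β.1)
  have h4 : ∀ n, ∃ j, Ψ n ≤ j ∧ n ≤ j ∧ Sm (F αst) (q n j) ∧ ∀ a ∈ q n j, n ≤ a := by
    intro n
    obtain ⟨j, ⟨⟨h5, h6⟩, h7⟩, h8⟩ := ((((h2 n).and_eventually (eventually_ge_atTop (Ψ n))).and_eventually
      (eventually_ge_atTop n)).and_eventually ((hq n).ge n)).exists
    exact ⟨j, h6, h7, h5, h8⟩
  choose J hJ1 hJ2 hJ3 hJ4 using h4
  refine ⟨J, hJ2, ?_, ?_⟩
  · intro N
    filter_upwards [eventually_ge_atTop N] with n hn a ha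
    have := hJ4 n a ha
    omega
  · intro γ
    rcases lt_or_ge γ αst with hγ | hγ
    · filter_upwards [hΨ ⟨γ, hγ⟩] with n hn
      have h5 : Φ γ n < Ψ n := hn
      exact hΦ γ n _ (by have := hJ1 n; omega)
    · obtain ⟨N, hN⟩ := eventually_atTop.1 (hF.le_of_le hγ)
      filter_upwards [eventually_ge_atTop N] with n hn
      apply chain_of_bounds (hJ3 n).1
      intro a ha b hb
      have h5 := (hJ3 n).2 a ha b hb
      have h6 := hN a (by have := hJ4 n a ha; omega)
      omega

/-- Arhangelskii's property alpha two: a sequence converging to `x` which meets each of countably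
many given sequences converging to `x` infinitely often. -/
theorem alpha_two (hF : Sc F) (x : List ℕ) (u : ℕ → ℕ → List ℕ)
    (hu : ∀ n, Tendsto (u n) atTop (@nhds _ (top F) x)) :
    ∃ v : ℕ → List ℕ, Tendsto v atTop (@nhds _ (top F) x) ∧
      ∀ n, ∃ᶠ j in atTop, u n j ∈ Set.range v := by
  letI := top F
  choose r hr hr' using fun n => null_of_tendsto (hu n)
  obtain ⟨j, hj, hj'⟩ := alpha_null hF (q := fun n => r (Nat.unpair n).1)
    (fun n => hr (Nat.unpair n).1)
  refine ⟨fun k => x ++ r (Nat.unpair k).1 (j k), tendsto_null x hj', fun n => ?_⟩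
  obtain ⟨N, hN⟩ := eventually_atTop.1 (hr' n)
  rw [frequently_atTop]
  intro M
  have h1 : max M N ≤ j (Nat.pair n (max M N)) :=
    (Nat.right_le_pair n (max M N)).trans (hj _)
  refine ⟨j (Nat.pair n (max M N)), (le_max_left _ _).trans h1, Nat.pair n (max M N), ?_⟩
  show x ++ r (Nat.unpair (Nat.pair n (max M N))).1 (j (Nat.pair n (max M N))) = _
  rw [Nat.unpair_pair, hN _ ((le_max_right _ _).trans h1)]

end Pool.Agent.helper989_frechet
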