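import Mathlib
import Pool.Agent.helper989_frechet.Alpha

/-!
# Families which are small: the diagonal lemma and the property alpha one; reduction to small
subfamilies
-/

set_option autoImplicit false
set_option linter.style.haveILetI false

open Filter Topology

namespace Pool.Agent.helper989_frechet

/-- families of functions indexed by `ι` are bounded -/
def Small (ι : Type) : Prop := ∀ f : ι → ℕ → ℕ, ∃ g : ℕ → ℕ, ∀ i, ∀ᶠ n in atTop, f i n < g n

variable {ι : Type} {F : ι → ℕ → ℕ}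

theorem diag_small (hs : Small ι) {r : ℕ → List ℕ} (hr : Null F r)
    {q : ℕ → ℕ → List ℕ} (hq : ∀ n, Null F (q n)) :
    ∃ n j : ℕ → ℕ, Null F (fun i => r (n i) ++ q (n i) (j i)) := by
  classical
  have h1 : ∀ (β : ι) (n : ℕ), ∃ Φ, (r n).IsChain (Rl (F β)) →
      ∀ j, Φ ≤ j → (r n ++ q n j).IsChain (Rl (F β)) := by
    intro β n
    by_cases h : (r n).IsChain (Rl (F β))
    · obtain ⟨Φ, hΦ⟩ := eventually_atTop.1 ((hq n).junction h)
      exact ⟨Φ, fun _ => hΦ⟩
    · exact ⟨0, fun h' => absurd h' h⟩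
  choose Φ hΦ using h1
  obtain ⟨g, hg⟩ := hs Φ
  have h2 : ∀ n, ∃ j, g n ≤ j ∧ ∀ a ∈ q n j, n ≤ a := by
    intro n
    obtain ⟨j, hj1, hj2⟩ := ((eventually_ge_atTop (g n)).and ((hq n).ge n)).exists
    exact ⟨j, hj1, hj2⟩
  choose j hj1 hj2 using h2
  refine ⟨fun n => n, j, ?_, ?_⟩
  · intro N
    filter_upwards [hr.ge N, eventually_ge_atTop N] with n h3 h4 a ha
    rcases List.mem_append.1 ha with ha | ha
    · exact h3 a ha
    · exact h4.trans (hj2 n a ha)
  · intro β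
    filter_upwards [hr.ch β, hg β] with n h3 h4
    exact hΦ β n h3 (j n) (by have := hj1 n; omega)

theorem op_lim_compl_of (hD : ∀ r : ℕ → List ℕ, Null F r → ∀ q : ℕ → ℕ → List ℕ,
    (∀ n, Null F (q n)) → ∃ n j : ℕ → ℕ, Null F (fun i => r (n i) ++ q (n i) (j i)))
    (A : Set (List ℕ)) : Op F (Lim F A)ᶜ := by
  intro t ht r hr
  by_contra hc
  have hc' : ∃ᶠ k in atTop, t ++ r k ∈ Lim F A := by
    rw [not_eventually] at hc
    simpa using hc
  obtain ⟨φ, hφ, hφ'⟩ := extraction_of_frequently_atTop hc'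
  choose q hq1 hq2 using hφ'
  obtain ⟨n, j, h⟩ := hD _ (hr.comp hφ.tendsto_atTop) q hq1
  refine ht ⟨_, h, fun k => ?_⟩
  have := hq2 (n k) (j k)
  simpa using this

theorem closure_subset_small (hs : Small ι) (A : Set (List ℕ)) :
    @closure _ (top F) A ⊆ Lim F A := by
  letI := top F
  have h1 : IsClosed (Lim F A) := isOpen_compl_iff.1 (isOpen_iff.2
    (op_lim_compl_of (fun r hr q hq => diag_small hs hr hq) A))
  exact closure_minimal (subset_lim A) h1

theorem frechet_small (hs : Small ι) : @FrechetUrysohnSpace _ (top F) := by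
  letI := top F
  refine ⟨fun A t ht => ?_⟩
  obtain ⟨r, hr, hr'⟩ := closure_subset_small hs A ht
  exact ⟨fun k => t ++ r k, hr', tendsto_null t hr⟩

/-- Arhangelskii's property alpha one for null sequences -/
theorem alpha_one_null (hs : Small ι) {q : ℕ → ℕ → List ℕ} (hq : ∀ n, Null F (q n)) :
    ∃ G : ℕ → ℕ, Null F (fun k => if G (Nat.unpair k).1 ≤ (Nat.unpair k).2 then
      q (Nat.unpair k).1 (Nat.unpair k).2 else []) := by
  classical
  have h1 : ∀ (β : ι) (n : ℕ), ∃ Φ, ∀ j, Φ ≤ j → (q n j).IsChain (Rl (F β)) := fun β n =>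
    eventually_atTop.1 ((hq n).ch β)
  choose Φ hΦ using h1
  obtain ⟨g, hg⟩ := hs Φ
  have h2 : ∀ n m : ℕ, ∃ Θ, ∀ j, Θ ≤ j → ∀ a ∈ q n j, m ≤ a := fun n m =>
    eventually_atTop.1 ((hq n).ge m)
  choose Θ hΘ using h2
  have key : ∀ (φ : ℕ → ℕ) (N : ℕ), ∀ᶠ k in atTop, N ≤ (Nat.unpair k).1 ∨
      φ (Nat.unpair k).1 ≤ (Nat.unpair k).2 := by
    intro φ N
    obtain ⟨J, hJ⟩ : ∃ J, ∀ n, n < N → φ n ≤ J :=
      ⟨(Finset.range N).sup φ, fun n hn => Finset.le_sup (Finset.mem_range.2 hn)⟩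
    filter_upwards [eventually_ge_atTop (Nat.pair N J)] with k hk
    by_contra hc
    push Not at hc
    obtain ⟨h3, h4⟩ := hc
    have h5 : (Nat.unpair k).2 < J := h4.trans_le (hJ _ h3)
    have h6 : Nat.pair (Nat.unpair k).1 (Nat.unpair k).2 < Nat.pair N J :=
      (Nat.pair_lt_pair_left _ h3).trans (Nat.pair_lt_pair_right _ h5)
    rw [Nat.pair_unpair] at h6
    omega
  refine ⟨fun n => max (g n) (Θ n n), ?_, ?_⟩
  · intro N
    filter_upwards [key (fun n => Θ n N) N] with k hk a ha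
    by_cases h : max (g (Nat.unpair k).1) (Θ (Nat.unpair k).1 (Nat.unpair k).1) ≤ (Nat.unpair k).2
    · rw [if_pos h] at ha
      rcases hk with hk | hk
      · exact hk.trans (hΘ _ _ _ ((le_max_right _ _).trans h) a ha)
      · exact hΘ _ _ _ hk a ha
    · rw [if_neg h] at ha
      simp at ha
  · intro β
    obtain ⟨N, hN⟩ := eventually_atTop.1 (hg β)
    filter_upwards [key (Φ β) N] with k hk
    by_cases h : max (g (Nat.unpair k).1) (Θ (Nat.unpair k).1 (Nat.unpair k).1) ≤ (Nat.unpair k).2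
    · rw [if_pos h]
      rcases hk with hk | hk
      · apply hΦ β
        have h3 := hN _ hk
        have h4 := (le_max_left _ _).trans h
        omega
      · exact hΦ β _ _ hk
    · rw [if_neg h]
      exact List.IsChain.nil

theorem alpha_one (hs : Small ι) (x : List ℕ) (u : ℕ → ℕ → List ℕ)
    (hu : ∀ n, Tendsto (u n) atTop (@nhds _ (top F) x)) :
    ∃ v : ℕ → List ℕ, Tendsto v atTop (@nhds _ (top F) x) ∧
      ∀ n, ∀ᶠ j in atTop, u n j ∈ Set.range v := by
  letI := top F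
  choose r hr hr' using fun n => null_of_tendsto (hu n)
  obtain ⟨G, hG⟩ := alpha_one_null hs hr
  refine ⟨_, tendsto_null x hG, fun n => ?_⟩
  filter_upwards [hr' n, eventually_ge_atTop (G n)] with j h1 h2
  refine ⟨Nat.pair n j, ?_⟩
  simp only [Nat.unpair_pair]
  rw [if_pos h2, h1]

/-- a family of clopen sets which determines the convergent sequences -/
def Gf (F : ι → ℕ → ℕ) : Set (Set (List ℕ)) :=
  Set.range (fun t => Cone t) ∪
    Set.range (fun p : ℕ × List ℕ => {u | ∃ s, u = p.2 ++ s ∧ ∀ a ∈ s, p.1 ≤ a}) ∪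
    Set.range (fun p : ι × List ℕ => Ch (F p.1) p.2)

theorem op_big_compl (n : ℕ) (t : List ℕ) : Op F {u | ∃ s, u = t ++ s ∧ ∀ a ∈ s, n ≤ a}ᶜ := by
  intro u hu r hr
  by_cases hut : u ∈ Cone t
  · obtain ⟨s, rfl⟩ := hut
    refine Eventually.of_forall fun k => ?_
    rintro ⟨w, hw, hw'⟩
    apply hu
    refine ⟨s, rfl, fun a ha => hw' a ?_⟩
    rw [List.append_assoc, List.append_cancel_left_eq] at hw
    rw [← hw]
    exact List.mem_append_left _ ha
  · filter_upwards [op_cone_compl (F := F) t u hut r hr] with k hk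
    rintro ⟨w, hw, _⟩
    exact hk ⟨w, hw⟩

theorem op_ch_compl (β : ι) (t : List ℕ) : Op F (Ch (F β) t)ᶜ := by
  intro u hu r hr
  by_cases hut : u ∈ Cone t
  · obtain ⟨s, rfl⟩ := hut
    refine Eventually.of_forall fun k => ?_
    rintro ⟨w, hw, hw'⟩
    apply hu
    refine ⟨s, rfl, ?_⟩
    rw [List.append_assoc, List.append_cancel_left_eq] at hw
    rw [← hw] at hw'
    exact (List.isChain_append.1 hw').1
  · filter_upwards [op_cone_compl (F := F) t u hut r hr] with k hk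
    rintro ⟨w, hw, _⟩
    exact hk ⟨w, hw⟩

theorem gf_clopen : ∀ G ∈ Gf F, @IsClopen _ (top F) G := by
  letI := top F
  rintro _ ((⟨t, rfl⟩ | ⟨p, rfl⟩) | ⟨p, rfl⟩)
  · exact isClopen_cone t
  · exact ⟨isOpen_compl_iff.1 (isOpen_iff.2 (op_big_compl p.1 p.2)), isOpen_iff.2 (op_big p.1 p.2)⟩
  · exact ⟨isOpen_compl_iff.1 (isOpen_iff.2 (op_ch_compl p.1 p.2)), isOpen_iff.2 (op_ch p.1 p.2)⟩

theorem gf_tendsto (x : List ℕ) (u : ℕ → List ℕ) :
    Tendsto u atTop (@nhds _ (top F) x) ↔ ∀ G ∈ Gf F, x ∈ G → ∀ᶠ n in atTop, u n ∈ G := by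
  classical
  letI := top F
  constructor
  · intro h G hG hx
    exact h.eventually ((gf_clopen G hG).isOpen.mem_nhds hx)
  · intro h
    let r : ℕ → List ℕ := fun k => if h : ∃ s, u k = x ++ s then h.choose else []
    have hr : ∀ k s, u k = x ++ s → r k = s := by
      intro k s hs
      have h2 : ∃ s, u k = x ++ s := ⟨s, hs⟩
      have h3 : r k = h2.choose := by simp only [r, dif_pos h2]
      have h4 := h2.choose_spec
      rw [← h3] at h4
      rw [hs, List.append_cancel_left_eq] at h4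
      exact h4.symm
    have hnull : Null F r := by
      constructor
      · intro n
        filter_upwards [h {u | ∃ s, u = x ++ s ∧ ∀ a ∈ s, n ≤ a} (Or.inl (Or.inr ⟨(n, x), rfl⟩))
          ⟨[], by simp, by simp⟩] with k hk
        obtain ⟨s, hs, hs'⟩ := hk
        rw [hr k s hs]
        exact hs'
      · intro β
        filter_upwards [h (Ch (F β) x) (Or.inr ⟨(β, x), rfl⟩) (self_mem_ch _ x)] with k hk
        obtain ⟨s, hs, hs'⟩ := hk
        rw [hr k s hs]
        exact hs'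
    refine (tendsto_null x hnull).congr' ?_
    filter_upwards [h (Cone x) (Or.inl (Or.inl ⟨x, rfl⟩)) ⟨[], by simp⟩] with k hk
    obtain ⟨s, hs⟩ := hk
    rw [hr k s hs]
    exact hs.symm

/-! ### Reduction to initial segments -/

variable [LinearOrder ι]

/-- the restriction of the family to an initial segment -/
def Fr (F : ι → ℕ → ℕ) (ρ : ι) : Set.Iio ρ → ℕ → ℕ := fun β => F β.1

theorem Null.restrict {r : ℕ → List ℕ} (h : Null F r) (ρ : ι) : Null (Fr F ρ) r :=
  ⟨h.ge, fun β => h.ch β.1⟩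

theorem op_of_restrict {V : Set (List ℕ)} {ρ : ι} (h : Op (Fr F ρ) V) : Op F V :=
  fun t ht r hr => h t ht r (hr.restrict ρ)

theorem reduce [WellFoundedLT ι] (hF : Sc F) (A : Set (List ℕ)) (t : List ℕ)
    (h : ∀ ρ, t ∈ Lim (Fr F ρ) A) : t ∈ Lim F A := by
  classical
  by_cases htA : t ∈ A
  · exact subset_lim A htA
  obtain ⟨α₀, -⟩ := hF.unb 0
  obtain ⟨α₁, hα₁⟩ := hF.ctb (fun _ => α₀)
  have hα : α₀ < α₁ := hα₁ 0
  choose r hr hrA using h
  have hne : ∀ ρ k, r ρ k ≠ [] := by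
    intro ρ k hk
    have := hrA ρ k
    rw [hk, List.append_nil] at this
    exact htA this
  -- the next index
  have h1 : ∀ ρ, ∃ ρ', α₁ ≤ ρ → ρ < ρ' ∧ ∃ᶠ k in atTop, Sm (F ρ') (r ρ k) := by
    intro ρ
    by_cases hρ : α₁ ≤ ρ
    · have hhead : Tendsto (fun k => (r ρ k).head (hne ρ k)) atTop atTop := by
        rw [tendsto_atTop]
        intro N
        filter_upwards [(hr ρ).ge N] with k hk
        exact hk _ (List.head_mem _)
      obtain ⟨ρ', h2, h3⟩ := hF.unb' ρ hhead (fun k => (r ρ k).getLast (hne ρ k))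
      refine ⟨ρ', fun _ => ⟨h2, (h3.and_eventually ((hr ρ).ch ⟨α₀, hα.trans_le hρ⟩)).mono ?_⟩⟩
      rintro k ⟨h4, h5⟩
      have h6 : (r ρ k).IsChain (· < ·) := chain_lt h5
      refine ⟨h6, fun a ha b hb => ?_⟩
      have ha' := (chain_bounds h6 (hne ρ k) a ha).1
      have hb' := (chain_bounds h6 (hne ρ k) b hb).2
      have := (hF.mono ρ').monotone ha'
      omega
    · exact ⟨ρ, fun h' => absurd h' hρ⟩
  choose nx hnx using h1
  let ρ : ℕ → ι := fun i => Nat.rec α₁ (fun _ b => nx b) i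
  have hρs : ∀ i, ρ (i + 1) = nx (ρ i) := fun i => rfl
  have hρ1 : ∀ i, α₁ ≤ ρ i := by
    intro i
    induction i with
    | zero => exact le_rfl
    | succ i ih => rw [hρs]; exact ih.trans (hnx _ ih).1.le
  have hρmono : StrictMono ρ := strictMono_nat_of_lt_succ fun i => by
    rw [hρs]; exact (hnx _ (hρ1 i)).1
  obtain ⟨δ, hδ, hmin⟩ := WellFounded.has_min (wellFounded_lt (α := ι)) {γ | ∀ i, ρ i < γ}
    (hF.ctb ρ)
  have hδ2 : ∀ i, ρ i < δ := hδ
  have hδ' : ∀ γ, γ < δ → ∃ i₀, ∀ i, i₀ ≤ i → γ < ρ i := by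
    intro γ hγ
    by_contra hc
    apply hmin γ _ hγ
    intro i
    by_contra hi
    apply hc
    refine ⟨i + 1, fun i' hi' => ?_⟩
    exact (not_lt.1 hi).trans_lt ((hρmono (Nat.lt_succ_self i)).trans_le (hρmono.monotone hi'))
  have h6 : ∀ (γ : ι) (i : ℕ), ∃ N, γ < ρ i → ∀ k, N ≤ k → (r (ρ i) k).IsChain (Rl (F γ)) := by
    intro γ i
    rcases Classical.em (γ < ρ i) with h | h
    · obtain ⟨N, hN⟩ := eventually_atTop.1 ((hr (ρ i)).ch ⟨γ, h⟩)
      exact ⟨N, fun _ => hN⟩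
    · exact ⟨0, fun h' => absurd h' h⟩
  choose θ hθ using h6
  obtain ⟨g, hg⟩ := hF.small δ (fun γ => θ γ.1)
  have h7 : ∀ i, ∃ N, ∀ x, N ≤ x → F (ρ (i + 1)) x < F δ x := fun i =>
    eventually_atTop.1 (hF.lt _ _ (hδ2 (i + 1)))
  choose κ hκ using h7
  have h8 : ∀ i, ∃ k, Sm (F (ρ (i + 1))) (r (ρ i) k) ∧ g i ≤ k ∧ (∀ a ∈ r (ρ i) k, κ i ≤ a) ∧
      ∀ a ∈ r (ρ i) k, i ≤ a := by
    intro i
    obtain ⟨k, ⟨⟨a, b⟩, c⟩, d⟩ := (((((hnx _ (hρ1 i)).2.and_eventually
      (eventually_ge_atTop (g i))).and_eventually ((hr (ρ i)).ge (κ i))).and_eventually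
      ((hr (ρ i)).ge i))).exists
    exact ⟨k, by rw [hρs]; exact a, b, c, d⟩
  choose k hk1 hk2 hk3 hk4 using h8
  refine ⟨fun i => r (ρ i) (k i), ⟨?_, ?_⟩, fun i => hrA _ _⟩
  · intro N
    filter_upwards [eventually_ge_atTop N] with i hi a ha
    exact hi.trans (hk4 i a ha)
  · intro γ
    rcases lt_or_ge γ δ with hγ | hγ
    · obtain ⟨i₀, hi₀⟩ := hδ' γ hγ
      filter_upwards [hg ⟨γ, hγ⟩, eventually_ge_atTop i₀] with i h9 h10
      have h11 : θ γ i < g i := h9
      exact hθ γ i (hi₀ i h10) _ (by have := hk2 i; omega)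
    · obtain ⟨N, hN⟩ := eventually_atTop.1 (hF.le_of_le hγ)
      filter_upwards [eventually_ge_atTop N] with i hi
      apply chain_of_bounds (hk1 i).1
      intro a ha b hb
      have h9 := (hk1 i).2 a ha b hb
      have h10 := hκ i a (hk3 i a ha)
      have h11 := hN a (hi.trans (hk4 i a ha))
      omega

end Pool.Agent.helper989_frechet
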